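import Pool.Agent.Y231.MF.Stm

/-!
# Project MF: basic facts on abstract geometric lattices
-/

set_option autoImplicit false
set_option linter.unusedSectionVars false

namespace Pool.Agent.Y467.MF

open Finset Classical Pool.Agent.Y231.MF

variable {L : Type*} [SemilatticeSup L] [OrderTop L] [Fintype L] {r : L → ℕ}

theorem mem_up {Z X : L} {j : ℕ} : X ∈ up r Z j ↔ Z ≤ X ∧ r X = r Z + j := by
  simp [up]

theorem mem_btw {X Y Q : L} : Q ∈ btw r X Y ↔ X ≤ Q ∧ r Q = r X + 1 ∧ Q ≤ Y := by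
  simp [Pool.Agent.Y231.MF.btw]

theorem mem_hyp {Z P Y H : L} : H ∈ hyp r Z P Y ↔ Z ≤ H ∧ H ≤ Y ∧ r H + 1 = r Y ∧ ¬ P ≤ H := by
  simp [hyp]

theorem mem_col {Z P Y X : L} : X ∈ col r Z P Y ↔ Z ≤ X ∧ X ≤ Y ∧ r X + 2 = r Y ∧ ¬ P ≤ X := by
  simp [col]

theorem rmono (h : GLat r) {X Y : L} (hXY : X ≤ Y) : r X ≤ r Y := h.mono.monotone hXY

theorem eq_of_rank (h : GLat r) {X Y : L} (hXY : X ≤ Y) (hr : r Y ≤ r X) : X = Y := by
  rcases hXY.eq_or_lt with h1 | h1
  · exact h1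
  · have := h.mono h1
    omega

/-- intervals of length two contain two atoms -/
theorem two_le_btw (h : GLat r) {X P Y : L} (hXP : X ≤ P) (hP : r P = r X + 1) (hPY : P ≤ Y)
    (hY : r Y = r X + 2) : 2 ≤ (btw r X Y).card := by
  obtain ⟨Q, h1, h2, h3, h4⟩ := h.atm X P Y hXP (hXP.trans hPY) (by
    intro h1
    have := rmono h h1
    omega)
  have h5 : ({P, Q} : Finset L) ⊆ btw r X Y := by
    intro R hR
    rw [Finset.mem_insert, Finset.mem_singleton] at hR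
    rcases hR with rfl | rfl
    · exact mem_btw.mpr ⟨hXP, hP, hPY⟩
    · exact mem_btw.mpr ⟨h1, h2, h3⟩
  have h6 : P ≠ Q := by
    rintro rfl
    exact h4 le_rfl
  calc 2 = ({P, Q} : Finset L).card := (Finset.card_pair h6).symm
    _ ≤ _ := Finset.card_le_card h5

end Pool.Agent.Y467.MF
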